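import Pool.Agent.Y922.AP.Stm

/-!
# The symmetries of the xi function and the entire function of `(s - 1/2)^2`
-/

set_option autoImplicit false

open Filter Topology Set

namespace Pool.Agent.Y907.AP

open Pool.Agent.Y922.AP

theorem xi_diff : Differentiable ℂ xi := by
  intro s
  unfold xi
  have h := differentiable_completedZeta₀ s
  fun_prop

theorem xi_sub (s : ℂ) : xi (1 - s) = xi s := by
  unfold xi
  rw [completedRiemannZeta₀_one_sub]
  ring

theorem GammaR_conj (s : ℂ) : Complex.Gammaℝ (starRingEnd ℂ s) =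
    starRingEnd ℂ (Complex.Gammaℝ s) := by
  have h1 : ((Real.pi : ℝ) : ℂ).arg ≠ Real.pi := by
    rw [Complex.arg_ofReal_of_nonneg Real.pi_pos.le]
    exact Real.pi_pos.ne
  have h2 := Complex.conj_cpow ((Real.pi : ℝ) : ℂ) (-s / 2) h1
  rw [Complex.Gammaℝ_def, Complex.Gammaℝ_def, map_mul, ← Complex.Gamma_conj]
  have e1 : starRingEnd ℂ (s / 2) = starRingEnd ℂ s / 2 := by
    rw [map_div₀, Complex.conj_ofNat]
  have e2 : starRingEnd ℂ (-s / 2) = -starRingEnd ℂ s / 2 := by
    rw [map_div₀, Complex.conj_ofNat, map_neg]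
  rw [e1, ← e2]
  congr 1
  have h3 := Complex.cpow_conj ((Real.pi : ℝ) : ℂ) (-s / 2) h1
  rw [h3, Complex.conj_ofReal]

theorem comp_conj {s : ℂ} (hs : 1 < s.re) : completedRiemannZeta (starRingEnd ℂ s) =
    starRingEnd ℂ (completedRiemannZeta s) := by
  have key : ∀ z : ℂ, 1 < z.re → completedRiemannZeta z = riemannZeta z * Complex.Gammaℝ z := by
    intro z hz
    have hz0 : z ≠ 0 := by
      rintro rfl
      rw [Complex.zero_re] at hz
      linarith
    rw [riemannZeta_def_of_ne_zero hz0, div_mul_cancel₀]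
    exact Complex.Gammaℝ_ne_zero_of_re_pos (by linarith)
  rw [key s hs, key _ (by rwa [Complex.conj_re]), GammaR_conj, riemannZeta_conj, map_mul]

theorem xi_conj (s : ℂ) : xi (starRingEnd ℂ s) = starRingEnd ℂ (xi s) := by
  have h1 : AnalyticOnNhd ℂ (fun z => starRingEnd ℂ (xi (starRingEnd ℂ z))) Set.univ := by
    apply DifferentiableOn.analyticOnNhd _ isOpen_univ
    intro z _
    exact (differentiableAt_conj_conj_iff.mpr (xi_diff _)).differentiableWithinAt
  have h2 : AnalyticOnNhd ℂ xi Set.univ :=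
    xi_diff.differentiableOn.analyticOnNhd isOpen_univ
  have h3 : (fun z => starRingEnd ℂ (xi (starRingEnd ℂ z))) =ᶠ[𝓝 (2 : ℂ)] xi := by
    have h4 : {z : ℂ | 1 < z.re} ∈ 𝓝 (2 : ℂ) :=
      (isOpen_lt continuous_const Complex.continuous_re).mem_nhds (by simp)
    filter_upwards [h4] with z hz
    have hz' : 1 < z.re := hz
    have h5 : starRingEnd ℂ (completedRiemannZeta₀ (starRingEnd ℂ z)) =
        completedRiemannZeta₀ z := by
      have h6 := comp_conj hz'
      rw [completedRiemannZeta_eq, completedRiemannZeta_eq] at h6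
      have h7 := congrArg (starRingEnd ℂ) h6
      simp only [map_sub, map_div₀, map_one, Complex.conj_conj] at h7
      linear_combination h7
    unfold xi
    simp only [map_div₀, map_add, map_mul, map_sub, map_one, Complex.conj_conj, Complex.conj_ofNat,
      h5]
  have h4 := h1.eq_of_eventuallyEq h2 h3
  have h5 := congrFun h4 (starRingEnd ℂ s)
  simp only [Complex.conj_conj] at h5
  exact h5.symm

theorem t_SYM : S_SYM := by
  refine ⟨xi_sub, xi_conj, xi_diff, ?_⟩
  unfold xi
  norm_num

theorem t_SQ : S_SQ := by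
  let f : ℂ → ℂ := fun z => xi (1 / 2 + z)
  have hf : Differentiable ℂ f := fun z =>
    (xi_diff _).comp z ((differentiableAt_const _).add differentiableAt_id)
  have hev : ∀ z, f (-z) = f z := by
    intro z
    change xi (1 / 2 + -z) = xi (1 / 2 + z)
    rw [← xi_sub]
    congr 1
    ring
  have hsq : ∀ z w : ℂ, z ^ 2 = w ^ 2 → f z = f w := by
    intro z w h
    rcases sq_eq_sq_iff_eq_or_eq_neg.1 h with h | h
    · rw [h]
    · rw [h, hev]
  let X : ℂ → ℂ := fun y => f (y ^ (1 / 2 : ℂ))
  have hroot : ∀ y : ℂ, (y ^ (1 / 2 : ℂ)) ^ 2 = y := by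
    intro y
    have h := Complex.cpow_nat_inv_pow y two_ne_zero
    have e : (1 / 2 : ℂ) = ((2 : ℕ) : ℂ)⁻¹ := by norm_num
    rw [e]
    exact h
  have hX : ∀ y w : ℂ, w ^ 2 = y → X y = f w := by
    intro y w h
    exact hsq _ _ (by rw [hroot, h])
  have hd : DifferentiableOn ℂ X (Set.univ \ {0}) := by
    intro y hy
    have hy0 : y ≠ 0 := fun h => hy.2 (by rw [h]; rfl)
    apply DifferentiableAt.differentiableWithinAt
    by_cases hs : y ∈ Complex.slitPlane
    · have h1 : DifferentiableAt ℂ (fun y : ℂ => y ^ (1 / 2 : ℂ)) y :=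
        differentiableAt_id.cpow_const hs
      exact (hf _).comp y h1
    · have hs' : -y ∈ Complex.slitPlane := by
        rw [Complex.mem_slitPlane_iff] at hs ⊢
        push Not at hs
        left
        rw [Complex.neg_re]
        have h2 : y.re ≠ 0 := fun h => hy0 (Complex.ext h hs.2)
        have h3 := lt_of_le_of_ne hs.1 h2
        linarith
      have h1 : DifferentiableAt ℂ (fun y : ℂ => f (Complex.I * (-y) ^ (1 / 2 : ℂ))) y := by
        have h2 : DifferentiableAt ℂ (fun y : ℂ => (-y) ^ (1 / 2 : ℂ)) y :=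
          (differentiableAt_id.neg).cpow_const hs'
        exact (hf _).comp y (h2.const_mul Complex.I)
      have h3 : X = fun y : ℂ => f (Complex.I * (-y) ^ (1 / 2 : ℂ)) := by
        funext y
        apply hX
        rw [mul_pow, hroot, Complex.I_sq]
        ring
      rw [h3]
      exact h1
  have hc : ContinuousAt X 0 := by
    have h1 : ContinuousAt (fun y : ℂ => y ^ (1 / 2 : ℂ)) 0 :=
      Complex.continuousAt_cpow_const_of_re_pos (by left; simp) (by norm_num)
    exact (hf.continuous.continuousAt).comp h1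
  have hXd : DifferentiableOn ℂ X Set.univ :=
    (Complex.differentiableOn_compl_singleton_and_continuousAt_iff univ_mem).1 ⟨hd, hc⟩
  refine ⟨X, differentiableOn_univ.1 hXd, fun s => ?_⟩
  rw [hX _ (s - 1 / 2) rfl]
  change xi (1 / 2 + (s - 1 / 2)) = xi s
  congr 1
  ring

end Pool.Agent.Y907.AP
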